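import Pool.Agent.W642.RS.Defs

/-!
# Every closed polygon with its vertices on a circle is described by a stack
-/

set_option autoImplicit false

namespace Pool.Agent.W902.RS

open Finset Pool.Agent.H832R2 Pool.Agent.H832R2.JR Pool.Agent.W642.RS

/-- a monotone numbering of the passages -/
theorem exists_numbering {N n : ℕ} (arc : Fin N × Bool → Fin n) :
    ∃ G : Fin N × Bool ≃ Fin (2 * N), ∀ x y, G x ≤ G y → arc x ≤ arc y := by
  have hc : Fintype.card (Fin N × Bool) = 2 * N := by
    rw [Fintype.card_prod, Fintype.card_fin, Fintype.card_bool, mul_comm]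
  let e₀ : Fin N × Bool ≃ Fin (2 * N) := Fintype.equivFinOfCardEq hc
  let g : Fin (2 * N) → Fin n := arc ∘ e₀.symm
  refine ⟨e₀.trans (Tuple.sort g).symm, fun x y h => ?_⟩
  have h1 := Tuple.monotone_sort g h
  simpa [g] using h1

theorem btw_symm (a b c d : ℕ) (h1 : a ≠ c) (h2 : b ≠ c) (h3 : d ≠ a) (h4 : b ≠ d) :
    ¬ (JR.Btw a b c ↔ JR.Btw a b d) →
      ¬ (JR.Btw c d a ↔ JR.Btw c d b) := by
  unfold JR.Btw
  intro h
  by_cases e1 : a < b <;> by_cases e2 : a < c <;> by_cases e3 : a < d <;> by_cases e4 : b < c <;>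
    by_cases e5 : b < d <;> by_cases e6 : c < d <;> omega

theorem edgesCross_symm {n : ℕ} (r : Equiv.Perm (Fin n)) (i j : Fin n)
    (h : EdgesCross r i j) : EdgesCross r j i := by
  obtain ⟨h1, h2, h3, h4⟩ := h
  refine ⟨h1.symm, h3, h2, btw_symm _ _ _ _ ?_ ?_ ?_ ?_ h4⟩
  · exact fun h => h1 (r.injective (Fin.val_injective h))
  · exact fun h => h2 (r.injective (Fin.val_injective h))
  · exact fun h => h3 (r.injective (Fin.val_injective h))
  · exact fun h => h1 ((finRotate n).injective (r.injective (Fin.val_injective h)))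

open Classical in
theorem exist (n : ℕ) (r : Equiv.Perm (Fin n)) : ∃ (N : ℕ) (D : Stack N n), IsPolygon r D := by
  let P : Finset (Fin n × Fin n) := univ.filter fun q => q.1 < q.2 ∧ EdgesCross r q.1 q.2
  have hP : ∀ q : P, q.1.1 < q.1.2 ∧ EdgesCross r q.1.1 q.1.2 := fun q =>
    (Finset.mem_filter.1 q.2).2
  let e : Fin P.card ≃ P := P.equivFin.symm
  let arc : Fin P.card × Bool → Fin n := fun x => if x.2 then (e x.1).1.2 else (e x.1).1.1
  obtain ⟨G, hG⟩ := exists_numbering arc
  have harcf : ∀ c, arc (c, false) = (e c).1.1 := fun c => rfl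
  have harct : ∀ c, arc (c, true) = (e c).1.2 := fun c => rfl
  refine ⟨P.card, ⟨G, arc, hG, ?_, ?_, fun _ => true⟩, ?_⟩
  · intro c
    rw [harcf, harct]
    exact (hP (e c)).1.ne
  · intro c d h
    rw [harcf, harct, harcf, harct, Sym2.eq_iff] at h
    rcases h with ⟨h1, h2⟩ | ⟨h1, h2⟩
    · exact e.injective (Subtype.ext (Prod.ext h1 h2))
    · exfalso
      have h3 := (hP (e c)).1
      have h4 := (hP (e d)).1
      rw [h1, h2] at h3
      exact lt_asymm h3 h4
  · intro i j
    change EdgesCross r i j ↔ ∃ c, s(arc (c, false), arc (c, true)) = s(i, j)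
    constructor
    · intro h
      rcases lt_or_gt_of_ne h.1 with hij | hij
      · have hm : (i, j) ∈ P := Finset.mem_filter.2 ⟨Finset.mem_univ _, hij, h⟩
        refine ⟨e.symm ⟨(i, j), hm⟩, ?_⟩
        rw [harcf, harct, Equiv.apply_symm_apply]
      · have hm : (j, i) ∈ P :=
          Finset.mem_filter.2 ⟨Finset.mem_univ _, hij, edgesCross_symm r i j h⟩
        refine ⟨e.symm ⟨(j, i), hm⟩, ?_⟩
        rw [harcf, harct, Equiv.apply_symm_apply]
        exact Sym2.eq_swap
    · rintro ⟨c, hc⟩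
      rw [harcf, harct, Sym2.eq_iff] at hc
      rcases hc with ⟨h1, h2⟩ | ⟨h1, h2⟩
      · rw [← h1, ← h2]
        exact (hP (e c)).2
      · rw [← h1, ← h2]
        exact edgesCross_symm r _ _ (hP (e c)).2

end Pool.Agent.W902.RS
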